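import Mathlib
import Pool.Agent.S10129

/-!
# Infinite words rich in k-abelian palindromes (MP_ca9ca1_co, Q1, full answer)

For every `k ≥ 1` there is an infinite `k`-abelian rich word over a finite alphabet.  It is the
image under `a ↦ a 0^k` of an infinite word all of whose factors of length `n` have at least `C n²`
abelian classes of factors (`Pool.Agent.S10129.result`).
-/

namespace Pool.Agent.Results.MP_ca9ca1_co.RichKAbelian

variable {A : Type*} [DecidableEq A]

/-- The number of occurrences of `x` as a factor of `u`. -/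
def occ (x u : List A) : ℕ := u.tails.countP (fun t => x.isPrefixOf t)

/-- `k`-abelian equivalence. -/
def kab (A : Type*) [DecidableEq A] (k : ℕ) : Setoid (List A) where
  r u v := ∀ x : List A, x.length ≤ k → occ x u = occ x v
  iseqv := ⟨fun _ _ _ => rfl, fun h x hx => (h x hx).symm, fun h h' x hx => (h x hx).trans (h' x hx)⟩

/-- `u` is a `k`-abelian palindrome: `u` and its reversal are `k`-abelian equivalent. -/
def IsKPal (k : ℕ) (u : List A) : Prop := (kab A k).r u u.reverse

/-- The number of classes of `k`-abelian equivalence containing at least one factor of `u` which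
is a `k`-abelian palindrome. -/
noncomputable def kpal (k : ℕ) (u : List A) : ℕ :=
  {c : Quotient (kab A k) | ∃ v : List A, v <:+: u ∧ IsKPal k v ∧ c = Quotient.mk _ v}.ncard

/-- The factor of length `n` of the infinite word `w` at position `i`. -/
def factor {A : Type*} (w : ℕ → A) (i n : ℕ) : List A := (List.range n).map (fun j => w (i + j))

/-! ### Occurrences -/

theorem occ_cons (x : List A) (a : A) (u : List A) :
    occ x (a :: u) = (if x <+: a :: u then 1 else 0) + occ x u := by
  unfold occ
  rw [List.tails_cons, List.countP_cons, add_comm]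
  simp [List.isPrefixOf_iff_prefix]

theorem occ_single (a : A) (u : List A) : occ [a] u = u.count a := by
  induction u with
  | nil => simp [occ, List.isPrefixOf]
  | cons b u ih =>
    rw [occ_cons, ih, List.count_cons, add_comm]
    congr 1
    by_cases h : a = b
    · subst h
      simp
    · have h' : ¬ b = a := fun h2 => h h2.symm
      simp [h, h']

/-- The number of occurrences of `x` in `pre ++ z` which start in `pre`. -/
def extra (x : List A) : List A → List A → ℕ
  | [], _ => 0
  | b :: pre, z => (if x <+: b :: (pre ++ z) then 1 else 0) + extra x pre z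

theorem occ_append (x pre z R : List A) (h : x.length ≤ z.length) :
    occ x (pre ++ (z ++ R)) = extra x pre z + occ x (z ++ R) := by
  induction pre with
  | nil => simp [extra]
  | cons b pre ih =>
    rw [List.cons_append, occ_cons, ih, extra, add_assoc]
    congr 1
    have : (x <+: b :: (pre ++ (z ++ R))) ↔ (x <+: b :: (pre ++ z)) := by
      have e : b :: (pre ++ (z ++ R)) = (b :: (pre ++ z)) ++ R := by simp
      rw [e]
      constructor
      · intro h1
        apply List.prefix_of_prefix_length_le h1 (List.prefix_append _ _)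
        simp only [List.length_cons, List.length_append]
        omega
      · intro h1
        exact h1.trans (List.prefix_append _ _)
    simp only [this]

/-! ### The padded words -/

/-- `T L = 0^k a₁ 0^k a₂ 0^k ⋯ a_r 0^k` for `L = a₁ ⋯ a_r`. -/
def T (k : ℕ) (z : A) (L : List A) : List A :=
  List.replicate k z ++ L.flatMap (fun a => a :: List.replicate k z)

omit [DecidableEq A] in
theorem T_cons (k : ℕ) (z a : A) (L : List A) :
    T k z (a :: L) = (List.replicate k z ++ [a]) ++ T k z L := by
  simp [T]

omit [DecidableEq A] in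
theorem T_append (k : ℕ) (z a : A) (L : List A) :
    T k z (L ++ [a]) = T k z L ++ (a :: List.replicate k z) := by
  simp [T]

theorem occ_T (k : ℕ) (z : A) (x : List A) (hx : x.length ≤ k) (L : List A) :
    occ x (T k z L) = occ x (List.replicate k z) +
      (L.map (fun a => extra x (List.replicate k z ++ [a]) (List.replicate k z))).sum := by
  induction L with
  | nil => simp [T]
  | cons a L ih =>
    rw [T_cons]
    have e : T k z L = List.replicate k z ++ L.flatMap (fun a => a :: List.replicate k z) := rfl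
    rw [e, occ_append _ _ _ _ (by simpa using hx), ← e, ih, List.map_cons, List.sum_cons]
    omega

theorem T_reverse (k : ℕ) (z : A) (L : List A) : (T k z L).reverse = T k z L.reverse := by
  induction L with
  | nil => simp [T]
  | cons a L ih =>
    rw [T_cons, List.reverse_append, ih, List.reverse_cons, T_append]
    simp

theorem T_kpal (k : ℕ) (z : A) (L : List A) : IsKPal k (T k z L) := by
  intro x hx
  rw [T_reverse, occ_T k z x hx, occ_T k z x hx]
  congr 1
  exact ((List.reverse_perm L).symm.map _).sum_eq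

/-! ### The infinite word -/

theorem factor_add {A : Type*} (w : ℕ → A) (i a b : ℕ) :
    factor w i (a + b) = factor w i a ++ factor w (i + a) b := by
  unfold factor
  rw [List.range_add, List.map_append, List.map_map]
  congr 1
  apply List.map_congr_left
  intro j _
  simp only [Function.comp]
  rw [Nat.add_assoc]

theorem factor_infix' {A : Type*} (w : ℕ → A) (i a b n : ℕ) (h : a + b ≤ n) :
    factor w (i + a) b <:+: factor w i n := by
  refine ⟨factor w i a, factor w (i + a + b) (n - (a + b)), ?_⟩
  rw [← factor_add, Nat.add_assoc, ← factor_add]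
  congr 1
  omega

/-- The image of `v` under `a ↦ (a+1) 0^k`. -/
def pad {m : ℕ} (k : ℕ) (v : ℕ → Fin m) : ℕ → Fin (m + 1) :=
  fun q => if q % (k + 1) = 0 then (v (q / (k + 1))).succ else 0

theorem factor_block {m : ℕ} (k : ℕ) (v : ℕ → Fin m) (s : ℕ) :
    factor (pad k v) ((k + 1) * s) (k + 1) = (v s).succ :: List.replicate k 0 := by
  rw [show k + 1 = 1 + k by ring, factor_add]
  have e1 : factor (pad k v) ((1 + k) * s) 1 = [(v s).succ] := by
    simp only [factor, List.range_one, List.map_cons, List.map_nil, Nat.add_zero]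
    congr 1
    unfold pad
    rw [show (1 + k) * s = (k + 1) * s by ring, Nat.mul_mod_right, if_pos rfl,
      Nat.mul_div_cancel_left _ (by omega)]
  have e2 : factor (pad k v) ((1 + k) * s + 1) k = List.replicate k 0 := by
    rw [List.eq_replicate_iff]
    refine ⟨by simp [factor], ?_⟩
    intro b hb
    simp only [factor, List.mem_map, List.mem_range] at hb
    obtain ⟨j, hj, rfl⟩ := hb
    unfold pad
    rw [if_neg]
    rw [show (1 + k) * s + 1 + j = (j + 1) + (k + 1) * s by ring, Nat.add_mul_mod_self_left,
      Nat.mod_eq_of_lt (by omega)]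
    omega
  rw [e1, e2]
  rfl

theorem factor_T {m : ℕ} (k : ℕ) (v : ℕ → Fin m) (s h : ℕ) :
    factor (pad k v) ((k + 1) * s + 1) ((k + 1) * h + k) =
      T k 0 ((factor v (s + 1) h).map Fin.succ) := by
  induction h with
  | zero =>
    have e1 := factor_block k v s
    rw [show k + 1 = 1 + k by ring, factor_add] at e1
    have e2 : factor (pad k v) ((1 + k) * s) 1 ++ factor (pad k v) ((1 + k) * s + 1) k =
        [pad k v ((1 + k) * s)] ++ factor (pad k v) ((1 + k) * s + 1) k := by
      simp [factor]
    rw [e2] at e1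
    have e3 := (List.cons.inj e1).2
    simp only [Nat.mul_zero, Nat.zero_add]
    rw [show (k + 1) * s + 1 = (1 + k) * s + 1 by ring]
    have e4 : T k (0 : Fin (m + 1)) ((factor v (s + 1) 0).map Fin.succ) = List.replicate k 0 := by
      simp [T, factor]
    rw [e4]
    exact e3
  | succ h ih =>
    have e1 : (k + 1) * (h + 1) + k = ((k + 1) * h + k) + (k + 1) := by ring
    have e2 : (k + 1) * s + 1 + ((k + 1) * h + k) = (k + 1) * (s + 1 + h) := by ring
    rw [e1, factor_add, ih, e2, factor_block]
    have e3 : factor v (s + 1) (h + 1) = factor v (s + 1) h ++ [v (s + 1 + h)] := by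
      rw [factor_add]
      simp [factor]
    rw [e3, List.map_append, List.map_cons, List.map_nil, T_append]

/-- The Parikh vector, read off the class. -/
def par (m k : ℕ) (hk : 1 ≤ k) : Quotient (kab (Fin (m + 1)) k) → (Fin m → ℕ) :=
  Quotient.lift (fun u a => occ [Fin.succ a] u) (by
    intro u v huv
    funext a
    exact huv [Fin.succ a] hk)

theorem count_T {m : ℕ} (k : ℕ) (L : List (Fin m)) (a : Fin m) :
    (T k (0 : Fin (m + 1)) (L.map Fin.succ)).count a.succ = L.count a := by
  induction L with
  | nil =>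
    simp [T, List.count_replicate, (Fin.succ_ne_zero a).symm]
  | cons b L ih =>
    rw [List.map_cons, T_cons, List.count_append, ih, List.count_append]
    have h0 : (List.replicate k (0 : Fin (m + 1))).count a.succ = 0 := by
      simp [List.count_replicate, (Fin.succ_ne_zero a).symm]
    rw [h0, List.count_cons]
    by_cases h : b = a
    · subst h
      simp [add_comm]
    · have h' : ¬ b.succ = a.succ := fun h2 => h (Fin.succ_injective _ h2)
      simp [h, h']

theorem count_factor {m : ℕ} (v : ℕ → Fin m) (s h : ℕ) (a : Fin m) :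
    (factor v s h).count a = ((Finset.Ico s (s + h)).filter (fun q => v q = a)).card := by
  induction h with
  | zero => simp [factor]
  | succ h ih =>
    rw [factor_add, List.count_append, ih, ← Nat.add_assoc,
      ← Finset.insert_Ico_right_eq_Ico_add_one (by omega), Finset.filter_insert]
    have e : factor v (s + h) 1 = [v (s + h)] := by simp [factor]
    rw [e]
    by_cases h1 : v (s + h) = a
    · rw [if_pos h1, Finset.card_insert_of_notMem (by simp), h1]
      simp
    · rw [if_neg h1]
      simp [h1]

theorem factors_finite (u : List A) : {v : List A | v <:+: u}.Finite := by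
  apply ((List.finite_toSet (u.tails)).biUnion
    (fun t _ => List.finite_toSet (t.inits))).subset
  intro v hv
  obtain ⟨t, h1, h2⟩ := List.infix_iff_prefix_suffix.mp hv
  simp only [Set.mem_iUnion]
  exact ⟨t, (List.mem_tails _ _).mpr h2, (List.mem_inits _ _).mpr h1⟩

theorem kpal_set_finite (k : ℕ) (u : List A) :
    {c : Quotient (kab A k) | ∃ v : List A, v <:+: u ∧ IsKPal k v ∧ c = Quotient.mk _ v}.Finite := by
  apply ((factors_finite u).image (Quotient.mk (kab A k))).subset
  rintro c ⟨v, h1, _, rfl⟩
  exact ⟨v, h1, rfl⟩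

/-- Lower bound by the number of abelian classes of the factors of `v`. -/
theorem kpal_ge {m : ℕ} (k : ℕ) (hk : 1 ≤ k) (v : ℕ → Fin m) (s N i n : ℕ)
    (h1 : i ≤ (k + 1) * s + 1) (h2 : (k + 1) * (s + 1 + N) ≤ i + n) :
    ((((Finset.range (N + 1)) ×ˢ (Finset.range (N + 1))).filter
      (fun p : ℕ × ℕ => 1 ≤ p.2 ∧ p.1 + p.2 ≤ N)).image
      (fun p : ℕ × ℕ => fun a : Fin m =>
        ((Finset.Ico (s + 1 + p.1) (s + 1 + p.1 + p.2)).filter
          (fun q => v q = a)).card)).card ≤ kpal k (factor (pad k v) i n) := by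
  unfold kpal
  have hfin := kpal_set_finite k (factor (pad k v) i n)
  refine le_trans ?_ (Set.ncard_image_le (f := par m k hk) hfin)
  rw [← Set.ncard_coe_finset]
  apply Set.ncard_le_ncard _ (hfin.image _)
  intro g hg
  rw [Finset.mem_coe, Finset.mem_image] at hg
  obtain ⟨p, hp, rfl⟩ := hg
  rw [Finset.mem_filter] at hp
  refine ⟨Quotient.mk _ (T k 0 ((factor v (s + p.1 + 1) p.2).map Fin.succ)), ⟨_, ?_, T_kpal _ _ _, rfl⟩, ?_⟩
  · rw [← factor_T]
    have e : (k + 1) * (s + p.1) + 1 = i + ((k + 1) * (s + p.1) + 1 - i) := by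
      have : (k + 1) * s ≤ (k + 1) * (s + p.1) := Nat.mul_le_mul_left _ (by omega)
      omega
    rw [e]
    apply factor_infix'
    have h3 : (k + 1) * (s + p.1) + ((k + 1) * p.2 + k) + 1 = (k + 1) * (s + 1 + (p.1 + p.2)) := by
      ring
    have h4 : (k + 1) * (s + 1 + (p.1 + p.2)) ≤ (k + 1) * (s + 1 + N) :=
      Nat.mul_le_mul_left _ (by omega)
    have h5 : (k + 1) * s ≤ (k + 1) * (s + p.1) := Nat.mul_le_mul_left _ (by omega)
    omega
  · funext a
    show occ [Fin.succ a] (T k 0 ((factor v (s + p.1 + 1) p.2).map Fin.succ)) = _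
    rw [occ_single, count_T, count_factor, show s + p.1 + 1 = s + 1 + p.1 by ring]

theorem kpal_pos (k : ℕ) (u : List A) : 1 ≤ kpal k u := by
  unfold kpal
  rw [Nat.one_le_iff_ne_zero, ← Nat.pos_iff_ne_zero, Set.ncard_pos (kpal_set_finite k u)]
  refine ⟨Quotient.mk _ [], [], ⟨[], u, rfl⟩, ?_, rfl⟩
  intro x _
  rfl

/-- **MP_ca9ca1_co, Q1.** For every `k ≥ 1` there are an infinite word `w` over a finite alphabet
and a constant `C > 0` such that every factor `u` of `w` of length `n ≥ 1` satisfies
`kpal_k(u) ≥ C n²`. -/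
theorem result (k : ℕ) (hk : 1 ≤ k) :
    ∃ (m : ℕ) (w : ℕ → Fin m) (C : ℝ), 0 < C ∧
      ∀ n : ℕ, 1 ≤ n → ∀ i : ℕ, C * (n : ℝ) ^ 2 ≤ (kpal k (factor w i n) : ℝ) := by
  obtain ⟨m, v, C, hC, hv⟩ := Pool.Agent.S10129.result
  have hP : (0 : ℝ) < ((k : ℝ) + 1) := by positivity
  refine ⟨m + 1, pad k v, min (C / (4 * ((k : ℝ) + 1) ^ 2)) (1 / (36 * ((k : ℝ) + 1) ^ 2)),
    by positivity, ?_⟩
  intro n hn i
  rcases Nat.lt_or_ge n (6 * (k + 1)) with hlt | hge
  · have h1 : (1 : ℝ) ≤ (kpal k (factor (pad k v) i n) : ℝ) := by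
      exact_mod_cast kpal_pos k _
    refine le_trans ?_ h1
    have h2 : (n : ℝ) ≤ 6 * ((k : ℝ) + 1) := by exact_mod_cast hlt.le
    have h3 : (n : ℝ) ^ 2 ≤ (6 * ((k : ℝ) + 1)) ^ 2 := pow_le_pow_left₀ (by positivity) h2 2
    calc _ ≤ (1 / (36 * ((k : ℝ) + 1) ^ 2)) * (n : ℝ) ^ 2 :=
          mul_le_mul_of_nonneg_right (min_le_right _ _) (by positivity)
      _ ≤ (1 / (36 * ((k : ℝ) + 1) ^ 2)) * (6 * ((k : ℝ) + 1)) ^ 2 :=
          mul_le_mul_of_nonneg_left h3 (by positivity)
      _ = 1 := by
          field_simp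
          ring
  · -- the window of `v`
    set s := i / (k + 1) + 1 with hs
    set N := n / (k + 1) - 2 with hN
    have hdiv : (k + 1) * (i / (k + 1)) ≤ i := Nat.mul_div_le i (k + 1)
    have hdiv2 : i < (k + 1) * (i / (k + 1)) + (k + 1) := Nat.lt_mul_div_succ i (by omega)
    have hdn : (k + 1) * (n / (k + 1)) ≤ n := Nat.mul_div_le n (k + 1)
    have hdn2 : n < (k + 1) * (n / (k + 1)) + (k + 1) := Nat.lt_mul_div_succ n (by omega)
    have h6 : 6 ≤ n / (k + 1) := by
      rw [Nat.le_div_iff_mul_le (by omega)]
      exact hge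
    have g1 : i ≤ (k + 1) * s + 1 := by
      rw [hs]
      have : (k + 1) * (i / (k + 1) + 1) = (k + 1) * (i / (k + 1)) + (k + 1) := by ring
      omega
    have g2 : (k + 1) * (s + 1 + N) ≤ i + n := by
      have e : s + 1 + N = i / (k + 1) + n / (k + 1) := by omega
      rw [e, Nat.mul_add]
      omega
    have h7 := kpal_ge k hk v s N i n g1 g2
    have h8 := hv (s + 1) N
    have h9 : C * (N : ℝ) ^ 2 ≤ (kpal k (factor (pad k v) i n) : ℝ) :=
      h8.trans (by exact_mod_cast h7)
    refine le_trans ?_ h9
    have hNn : (n : ℝ) ≤ 2 * ((k : ℝ) + 1) * N := by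
      have : n ≤ 2 * (k + 1) * N := by
        have e1 : 2 * (k + 1) * N = (k + 1) * (2 * N) := by ring
        have e2 : (k + 1) * (n / (k + 1)) + (k + 1) = (k + 1) * (n / (k + 1) + 1) := by ring
        have e3 : (k + 1) * (n / (k + 1) + 1) ≤ (k + 1) * (2 * N) :=
          Nat.mul_le_mul_left _ (by omega)
        omega
      exact_mod_cast this
    have h10 : (n : ℝ) ^ 2 ≤ (2 * ((k : ℝ) + 1) * N) ^ 2 := pow_le_pow_left₀ (by positivity) hNn 2
    calc _ ≤ (C / (4 * ((k : ℝ) + 1) ^ 2)) * (n : ℝ) ^ 2 :=
          mul_le_mul_of_nonneg_right (min_le_left _ _) (by positivity)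
      _ ≤ (C / (4 * ((k : ℝ) + 1) ^ 2)) * (2 * ((k : ℝ) + 1) * N) ^ 2 :=
          mul_le_mul_of_nonneg_left h10 (by positivity)
      _ = C * (N : ℝ) ^ 2 := by
          field_simp
          ring

end Pool.Agent.Results.MP_ca9ca1_co.RichKAbelian
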